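import Mathlib
import Pool.Agent.TH170.CM.Defs
import Pool.Agent.H977R3.CM.Defs

/-!
# Rigid slope types

Let `E` be a CM field with a CM type `Φ` and weights `M : (E →+* ℂ) → ℤ`, invariant under the complex
conjugation. They prescribe the slopes `(a + κ M) / 2` (at the embeddings in `Φ`) and `(a - κ M) / 2`
(at the other embeddings) of a Weil number `π` in `E`. The function `sgn Φ * M` (with the values `M`
on `Φ` and `- M` outside of `Φ`) is the slope function, shifted and scaled. The function `w` below is a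
linear combination of the conjugates of this function: it describes the slopes of a product of
(rational) powers of the conjugates of `π`.
-/

set_option autoImplicit false

namespace Pool.Agent.Zk39.NP

open NumberField Module Pool.Agent.H204R3.CM Pool.Agent.H977R3.CM Pool.Agent.TH170.CM

variable {E : Type*} [Field E]

/-- `w` is a linear combination, with rational coefficients, of the functions `φ ↦ ± M (σ φ)` (sign `+`
if `σ φ ∈ Φ`, `-` otherwise), `σ` running through the automorphisms of `ℂ`. -/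
def IsCombination (M : (E →+* ℂ) → ℤ) (Φ : Set (E →+* ℂ)) (w : (E →+* ℂ) → ℤ) : Prop :=
  (fun φ => (w φ : ℚ)) ∈ Submodule.span ℚ {v : (E →+* ℂ) → ℚ | ∃ σ : ℂ ≃+* ℂ, ∀ φ : E →+* ℂ,
    v φ = ((sgn Φ ((σ : ℂ →+* ℂ).comp φ) * M ((σ : ℂ →+* ℂ).comp φ) : ℤ) : ℚ)}

/-- The embeddings in the orbit of `ψ` under `H` and their complex conjugates. -/
def pairOrb (H : Subgroup (ℂ ≃+* ℂ)) (ψ : E →+* ℂ) : Set (E →+* ℂ) :=
  {φ | φ ∈ orb H ψ ∨ ComplexEmbedding.conjugate φ ∈ orb H ψ}

/-- One value of `w` is larger than the sum of the absolute values at all other conjugate pairs. -/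
def HasDominant [NumberField E] (w : (E →+* ℂ) → ℤ) : Prop :=
  ∃ ψ : E →+* ℂ, ∑ φ, |w φ| < 4 * |w ψ|

/-- Some group of automorphisms of `ℂ` has an orbit of `r ^ k` embeddings, `r` a prime number, without
conjugate pairs, over which the sum of `w` is prime to `r`, and `w` is divisible by `r` outside of the
orbit and its conjugate. -/
def HasOrbitSum (w : (E →+* ℂ) → ℤ) : Prop :=
  ∃ (r k : ℕ) (H : Subgroup (ℂ ≃+* ℂ)) (ψ : E →+* ℂ), r.Prime ∧ (orb H ψ).ncard = r ^ k ∧
    ComplexEmbedding.conjugate ψ ∉ orb H ψ ∧ (∀ φ, φ ∉ pairOrb H ψ → (r : ℤ) ∣ w φ) ∧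
      ¬ (r : ℤ) ∣ ∑ᶠ φ ∈ orb H ψ, w φ

/-- Some group of automorphisms of `ℂ` has an orbit of `r ^ k` conjugate pairs of embeddings, `r` a
prime number, such that no sum of `w` over one element of each pair is divisible by `r`, and `w` is
divisible by `r` outside of the orbit. -/
def HasSignedSums (w : (E →+* ℂ) → ℤ) : Prop :=
  ∃ (r k : ℕ) (H : Subgroup (ℂ ≃+* ℂ)) (ψ : E →+* ℂ), r.Prime ∧
    (pairOrb H ψ).ncard = 2 * r ^ k ∧ (∀ φ, φ ∉ pairOrb H ψ → (r : ℤ) ∣ w φ) ∧
      ∀ Ψ : Set (E →+* ℂ), IsCMType Ψ → ¬ (r : ℤ) ∣ ∑ᶠ φ ∈ Ψ ∩ pairOrb H ψ, w φ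

/-- Some group of automorphisms of `ℂ` has an orbit of an even number of conjugate pairs of embeddings,
and `w` is even outside of the orbit and at exactly one pair of the orbit. -/
def HasOneEven (w : (E →+* ℂ) → ℤ) : Prop :=
  ∃ (H : Subgroup (ℂ ≃+* ℂ)) (ψ : E →+* ℂ), 4 ∣ (pairOrb H ψ).ncard ∧ Even (w ψ) ∧
    (∀ φ ∈ pairOrb H ψ, φ ≠ ψ → φ ≠ ComplexEmbedding.conjugate ψ → Odd (w φ)) ∧
      ∀ φ, φ ∉ pairOrb H ψ → Even (w φ)

/-- The degree of `E` is a power of two, its discriminant is not a square, and all weights are odd. -/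
def HasOddWeights [NumberField E] (M : (E →+* ℂ) → ℤ) : Prop :=
  ∃ k : ℕ, finrank ℚ E = 2 ^ (k + 1) ∧ ¬ IsSquare (discr E) ∧ ∀ φ, Odd (M φ)

/-- Some combination `w` of the conjugates satisfies one of the four conditions above, or the weights
are odd, the degree is a power of two and the discriminant is not a square. -/
def RigidW [NumberField E] (M : (E →+* ℂ) → ℤ) (Φ : Set (E →+* ℂ)) : Prop :=
  (∃ w : (E →+* ℂ) → ℤ, IsCombination M Φ w ∧
    (HasDominant w ∨ HasOrbitSum w ∨ HasSignedSums w ∨ HasOneEven w)) ∨ HasOddWeights M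

/-- One of three conditions on the weights `M` alone (on the Newton polygon): one weight is larger than
the sum of the absolute values of the weights at the other conjugate pairs; or `[E : ℚ] = 2 r ^ k`,
`r` a prime number, the sum of the weights over one half of the embeddings is odd, and `r = 2` or the
sum of the absolute values over one half is smaller than `r`; or `[E : ℚ]` is divisible by four and the
weights are even at exactly one conjugate pair. -/
def NewtonRigid [NumberField E] (M : (E →+* ℂ) → ℤ) : Prop :=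
  (∃ ψ, ∑ φ, |M φ| < 4 * |M ψ|) ∨
    (∃ r k : ℕ, r.Prime ∧ finrank ℚ E = 2 * r ^ k ∧ ¬ (4 : ℤ) ∣ ∑ φ, M φ ∧
      (r = 2 ∨ ∑ φ, |M φ| < 2 * r)) ∨
    (4 ∣ finrank ℚ E ∧ ∃ ψ, Even (M ψ) ∧
      ∀ φ, φ ≠ ψ → φ ≠ ComplexEmbedding.conjugate ψ → Odd (M φ))

/-- The slope type given by the weights `M` and the CM type `Φ` is rigid. -/
def Rigid [NumberField E] (M : (E →+* ℂ) → ℤ) (Φ : Set (E →+* ℂ)) : Prop :=
  NewtonRigid M ∨ RigidW M Φ

end Pool.Agent.Zk39.NP
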