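import Mathlib
import Pool.Agent.H925R2.Core

/-!
# Relations modulo a prime number, localised at an orbit

A finite `r`-group `Q` acts on a finite set `R` with an involution `inv`. We consider vectors modulo
`r` which are supported on a `Q`-stable subset `D`.
-/

set_option autoImplicit false

namespace Pool.Agent.Zk39.NP

open MulAction Pool.Agent.H925R2

variable {R : Type*} [Fintype R] {inv : R → R} {Q : Type*} [Group Q] [MulAction Q R]

/-- A nonzero antisymmetric vector supported on `D` and orthogonal to the translates of `u` can be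
replaced by one which is fixed by `Q`. -/
theorem exists_fixed [DecidableEq R] (hinv : ∀ x, inv (inv x) = x)
    (hQ : ∀ (q : Q) (x : R), q • inv x = inv (q • x)) (r : ℕ) [Fact r.Prime] (hp : IsPGroup r Q)
    (D : Set R) (hD : ∀ (q : Q) (x : R), x ∈ D → q • x ∈ D) (u c : R → ZMod r)
    (hc : ∀ x, c (inv x) = - c x) (hcD : ∀ x, x ∉ D → c x = 0) (hc0 : ∃ x, c x ≠ 0)
    (hrel : ∀ (q : Q) (Φ : Finset R), IsHalf inv Φ → ∑ x ∈ Φ, c x * u (q • x) = 0) :
    ∃ f : R → ZMod r, (∃ x, f x ≠ 0) ∧ (∀ x, f (inv x) = - f x) ∧ (∀ x, x ∉ D → f x = 0) ∧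
      (∀ (q : Q) (x : R), f (q • x) = f x) ∧
      ∀ Φ : Finset R, IsHalf inv Φ → ∑ x ∈ Φ, f x * u x = 0 := by
  classical
  let W : AddSubgroup (R → ZMod r) :=
    { carrier := {f | (∀ x, f (inv x) = -f x) ∧ (∀ x, x ∉ D → f x = 0) ∧
        ∀ (q : Q) (Φ : Finset R), IsHalf inv Φ → ∑ x ∈ Φ, f x * u (q • x) = 0}
      zero_mem' := by
        refine ⟨fun x => by simp, fun x _ => rfl, fun g Φ _ => by simp⟩
      add_mem' := by
        rintro a b ⟨ha1, ha3, ha2⟩ ⟨hb1, hb3, hb2⟩
        refine ⟨fun x => by simp only [Pi.add_apply, ha1, hb1]; ring,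
          fun x hx => by simp only [Pi.add_apply, ha3 x hx, hb3 x hx, add_zero], fun g Φ hh => ?_⟩
        simp only [Pi.add_apply, add_mul, Finset.sum_add_distrib, ha2 g Φ hh, hb2 g Φ hh, add_zero]
      neg_mem' := by
        rintro a ⟨ha1, ha3, ha2⟩
        refine ⟨fun x => by simp only [Pi.neg_apply, ha1],
          fun x hx => by simp only [Pi.neg_apply, ha3 x hx, neg_zero], fun g Φ hh => ?_⟩
        simp only [Pi.neg_apply, neg_mul, Finset.sum_neg_distrib, ha2 g Φ hh, neg_zero] }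
  have hWsmul : ∀ (s : Q) (f : R → ZMod r), f ∈ W → (fun x => f (s⁻¹ • x)) ∈ W := by
    rintro s f ⟨hf1, hf3, hf2⟩
    refine ⟨fun x => ?_, fun x hx => ?_, fun g Φ hh => ?_⟩
    · simp only [hQ, hf1]
    · refine hf3 _ fun h => hx ?_
      have := hD s _ h
      rwa [smul_inv_smul] at this
    · have h1 := hf2 (g * s) (Φ.image (fun x => s⁻¹ • x)) (by
        intro x
        simp only [Finset.mem_image, not_exists, not_and]
        constructor
        · rintro ⟨y, hy, rfl⟩ z hz hzy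
          have : z = inv y := by
            have h := congrArg (fun t => s • t) hzy
            simpa [hQ] using h
          rw [this] at hz
          exact ((hh y).1 hy) hz
        · intro h
          refine ⟨s • x, ?_, by simp⟩
          rw [hh (s • x)]
          intro h'
          exact h _ h' (by rw [hQ]; simp))
      rw [Finset.sum_image (by
        intro a _ b _ hab
        exact smul_left_cancel _ hab)] at h1
      simp only [mul_smul, smul_inv_smul] at h1
      exact h1
  let _ : MulAction Q W :=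
    { smul := fun s f => ⟨fun x => f.1 (s⁻¹ • x), hWsmul s f.1 f.2⟩
      one_smul := by
        intro f
        apply Subtype.ext
        funext x
        change f.1 ((1 : Q)⁻¹ • x) = f.1 x
        simp
      mul_smul := by
        intro a b f
        apply Subtype.ext
        funext x
        change f.1 ((a * b)⁻¹ • x) = f.1 (b⁻¹ • (a⁻¹ • x))
        rw [← mul_smul, mul_inv_rev] }
  have hcW : c ∈ W := ⟨hc, hcD, hrel⟩
  have hWne : Nontrivial W := by
    obtain ⟨x, hx⟩ := hc0
    exact ⟨⟨⟨_, hcW⟩, 0, fun h => hx (congrFun (congrArg Subtype.val h) x)⟩⟩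
  have hWcard : r ∣ Nat.card W := by
    have h1 : Nat.card W ∣ r ^ (Fintype.card R) := by
      have := W.card_addSubgroup_dvd_card
      rwa [Nat.card_eq_fintype_card (α := R → ZMod r), Fintype.card_fun, ZMod.card] at this
    obtain ⟨m, hm, hm2⟩ := (Nat.dvd_prime_pow (Fact.out : r.Prime)).1 h1
    rw [hm2]
    apply dvd_pow_self
    rintro rfl
    have h3 : 1 < Nat.card W := Finite.one_lt_card
    rw [hm2, pow_zero] at h3
    exact absurd h3 (lt_irrefl _)
  obtain ⟨f, hf, hf0⟩ := hp.exists_fixed_point_of_prime_dvd_card_of_fixed_point W hWcard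
    (a := (0 : W)) (by
      intro s
      apply Subtype.ext
      funext x
      rfl)
  have hffix : ∀ (s : Q) (x : R), f.1 (s • x) = f.1 x := by
    intro s x
    have h1 : s⁻¹ • f = f := hf s⁻¹
    have h2 := congrFun (congrArg Subtype.val h1) x
    have h3 : f.1 ((s⁻¹)⁻¹ • x) = f.1 x := h2
    simpa using h3
  refine ⟨f.1, ?_, f.2.1, f.2.2.1, hffix, fun Φ hΦ => ?_⟩
  · by_contra hall
    push Not at hall
    apply hf0
    apply Subtype.ext
    funext x
    exact (hall x).symm
  · have h1 := f.2.2.2 1 Φ hΦ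
    simpa only [one_smul] using h1

/-- There is no such vector, if `Q` is transitive on the pairs of elements of `D` and the sum of `u`
over a half of `D` is not zero. -/
theorem no_relation [DecidableEq R] (hinv : ∀ x, inv (inv x) = x)
    (hQ : ∀ (q : Q) (x : R), q • inv x = inv (q • x)) (r : ℕ) [Fact r.Prime] (hp : IsPGroup r Q)
    (D : Set R) [DecidablePred (· ∈ D)] (hD : ∀ (q : Q) (x : R), x ∈ D → q • x ∈ D)
    (hDi : ∀ x ∈ D, inv x ∈ D) (u c : R → ZMod r)
    (hc : ∀ x, c (inv x) = - c x) (hcD : ∀ x, x ∉ D → c x = 0) (hc0 : ∃ x, c x ≠ 0)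
    (hrel : ∀ (q : Q) (Φ : Finset R), IsHalf inv Φ → ∑ x ∈ Φ, c x * u (q • x) = 0)
    (Φ : Finset R) (hΦ : IsHalf inv Φ)
    (htr : ∀ x ∈ Φ, x ∈ D → ∀ y ∈ Φ, y ∈ D → ∃ q : Q, q • x = y ∨ (r = 2 ∧ q • x = inv y))
    (hsum : ∑ x ∈ Φ.filter (· ∈ D), u x ≠ 0) : False := by
  obtain ⟨f, ⟨y, hy⟩, hf1, hf2, hf3, hf4⟩ := exists_fixed hinv hQ r hp D hD u c hc hcD hc0 hrel
  have hyD : y ∈ D := by
    by_contra h
    exact hy (hf2 y h)
  obtain ⟨x₀, hx₀, hxD, hx0⟩ : ∃ x₀ ∈ Φ, x₀ ∈ D ∧ f x₀ ≠ 0 := by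
    by_cases h : y ∈ Φ
    · exact ⟨y, h, hyD, hy⟩
    · rw [hΦ y, not_not] at h
      exact ⟨inv y, h, hDi y hyD, by rw [hf1, neg_ne_zero]; exact hy⟩
  have hconst : ∀ x ∈ Φ, x ∈ D → f x = f x₀ := by
    intro x hx hxD'
    obtain ⟨q, hq | ⟨h2, hq⟩⟩ := htr x₀ hx₀ hxD x hx hxD'
    · rw [← hq, hf3]
    · have h3 : f (inv x) = f x₀ := by rw [← hq, hf3]
      rw [hf1] at h3
      subst h2
      rw [← h3]
      exact (ZMod.neg_eq_self_mod_two _).symm
  have h1 := hf4 Φ hΦ
  have h2 : ∑ x ∈ Φ, f x * u x = f x₀ * ∑ x ∈ Φ.filter (· ∈ D), u x := by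
    rw [Finset.mul_sum, Finset.sum_filter]
    refine Finset.sum_congr rfl fun x hx => ?_
    split_ifs with h
    · rw [hconst x hx h]
    · rw [hf2 x h, zero_mul]
  rw [h2] at h1
  rcases mul_eq_zero.1 h1 with h | h
  · exact hx0 h
  · exact hsum h

end Pool.Agent.Zk39.NP
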