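import Mathlib
import Pool.Agent.Zk39.NP.Fixed

/-!
# Integral relations and orbits of prime power length
-/

set_option autoImplicit false

namespace Pool.Agent.Zk39.NP

open MulAction Pool.Agent.H925R2

variable {R : Type*} [Fintype R] {inv : R → R} {G : Type*} [Group G] [MulAction G R]

/-- A nonzero integral vector is a multiple of one that is not zero modulo `r`. -/
theorem exists_primitive (r : ℕ) [Fact r.Prime] (c : R → ℤ) (hc : ∃ x, c x ≠ 0) :
    ∃ (d : ℤ) (c' : R → ℤ), d ≠ 0 ∧ (∀ x, c x = d * c' x) ∧ ∃ x, ¬ (r : ℤ) ∣ c' x := by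
  classical
  obtain ⟨x₀, hx₀⟩ := hc
  obtain ⟨c', hc1, hc2⟩ := Finset.extract_gcd (s := (Finset.univ : Finset R)) c
    ⟨x₀, Finset.mem_univ _⟩
  refine ⟨Finset.univ.gcd c, c', ?_, fun x => hc1 x (Finset.mem_univ _), ?_⟩
  · intro h
    apply hx₀
    rw [hc1 x₀ (Finset.mem_univ _), h, zero_mul]
  · by_contra hall
    push Not at hall
    have : (r : ℤ) ∣ Finset.univ.gcd c' := Finset.dvd_gcd fun x _ => hall x
    rw [hc2] at this
    have h2 := Int.isUnit_iff_natAbs_eq.1 (isUnit_of_dvd_one this)
    simp only [Int.natAbs_natCast] at h2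
    exact (Fact.out : r.Prime).one_lt.ne' h2

/-- **Local criterion.** Suppose that `u` is divisible by `r` outside of the orbit of `x₀` under `P`
and of the conjugate orbit, that the orbit has `r ^ k` elements, and that the sum of `u` over the orbit
is prime to `r` or (if the orbit contains the conjugate of `x₀`) the sum of `m = ± u` over the orbit is
not divisible by four. Then there is no relation between the translates of `u`. -/
theorem core_local [DecidableEq R] [Finite G] [IsPretransitive G R] (hinv : ∀ x, inv (inv x) = x)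
    (hne : ∀ x, inv x ≠ x) (hG : ∀ (g : G) (x : R), g • inv x = inv (g • x)) (r k : ℕ)
    [Fact r.Prime] (P : Subgroup G) (x₀ : R) (hcard : (orbit P x₀).ncard = r ^ k) (O : Finset R)
    (hO : ∀ x, x ∈ O ↔ x ∈ orbit P x₀) (u m c : R → ℤ) (hu : ∀ x, u (inv x) = -u x)
    (hm : ∀ x, m (inv x) = m x) (hmu : ∀ x, u x = m x ∨ u x = - m x)
    (hc : ∀ x, c (inv x) = -c x)
    (hloc : ∀ x, x ∉ O → inv x ∉ O → (r : ℤ) ∣ u x)
    (hsum : (inv x₀ ∉ O ∧ ¬ (r : ℤ) ∣ ∑ x ∈ O, u x) ∨ (inv x₀ ∈ O ∧ ¬ (4 : ℤ) ∣ ∑ x ∈ O, m x))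
    (hrel : ∀ g : G, ∑ x, c (g • x) * u x = 0) : ∀ x, c x = 0 := by
  classical
  by_contra hcon
  push Not at hcon
  obtain ⟨d, c', hd, hcc, x₁, hx₁⟩ := exists_primitive r c hcon
  obtain ⟨g₀, rfl⟩ := exists_smul_eq G x₀ x₁
  have hc' : ∀ x, c' (inv x) = - c' x := by
    intro x
    have := hc x
    rw [hcc, hcc] at this
    apply mul_left_cancel₀ hd
    rw [this]; ring
  have hrel' : ∀ g : G, ∑ x, c' (g • x) * u x = 0 := by
    intro g
    apply mul_left_cancel₀ hd
    rw [mul_zero, Finset.mul_sum, ← hrel g]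
    refine Finset.sum_congr rfl fun x _ => ?_
    rw [hcc]; ring
  -- the relation for halves
  have hhalf : ∀ (g h : G) (Φ : Finset R), IsHalf inv Φ → ∑ x ∈ Φ, c' (g • x) * u (h • x) = 0 := by
    intro g h Φ hΦ
    have h1 := hΦ.sum_symm hinv (fun x => c' (g • x) * u (h • x)) (fun x => by
      simp only [hc', hG, hu]; ring)
    have h2 : ∑ x, c' (g • x) * u (h • x) = 0 := by
      rw [← hrel' (g * h⁻¹)]
      refine Fintype.sum_equiv (MulAction.toPerm h) _ _ fun x => ?_
      simp only [MulAction.toPerm_apply, mul_smul, inv_smul_smul]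
    rw [h2] at h1
    omega
  obtain ⟨Q⟩ : Nonempty (Sylow r P) := inferInstance
  -- `Q` acts on `R` through `P ≤ G`
  have hqa : ∀ (q : Q) (x : R), q • x = ((q : P) : G) • x := fun q x => rfl
  have hQO : ∀ (q : Q) (x : R), x ∈ O → q • x ∈ O := by
    intro q x hx
    rw [hO] at hx ⊢
    obtain ⟨p, rfl⟩ := hx
    exact ⟨(q : P) * p, by simp only [mul_smul]; rfl⟩
  have hQi : ∀ (q : Q) (x : R), q • inv x = inv (q • x) := fun q x => hG _ x
  have htrO : ∀ x ∈ O, ∀ y ∈ O, ∃ q : Q, q • x = y := by
    intro x hx y hy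
    rw [hO] at hx hy
    have hB : Nat.card (orbit P x₀) = r ^ k := hcard
    obtain ⟨q, hq⟩ := sylow_transitive (G := P) (B := orbit P x₀) r k hB Q ⟨x, hx⟩ ⟨y, hy⟩
    exact ⟨q, congrArg Subtype.val hq⟩
  have hx₀O : x₀ ∈ O := (hO x₀).2 (mem_orbit_self x₀)
  let D : Set R := {x | x ∈ O ∨ inv x ∈ O}
  have hDi : ∀ x ∈ D, inv x ∈ D := by
    rintro x (h | h)
    · exact Or.inr (by rw [hinv]; exact h)
    · exact Or.inl h
  have hDQ : ∀ (q : Q) (x : R), x ∈ D → q • x ∈ D := by
    rintro q x (h | h)
    · exact Or.inl (hQO q x h)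
    · refine Or.inr ?_
      rw [← hQi]
      exact hQO q _ h
  let cc : R → ZMod r := fun x => if x ∈ D then ((c' (g₀ • x) : ℤ) : ZMod r) else 0
  let uu : R → ZMod r := fun x => ((u x : ℤ) : ZMod r)
  have hud : ∀ x, x ∉ D → uu x = 0 := by
    intro x hx
    have h1 : x ∉ O := fun h => hx (Or.inl h)
    have h2 : inv x ∉ O := fun h => hx (Or.inr h)
    exact (ZMod.intCast_zmod_eq_zero_iff_dvd _ _).2 (hloc x h1 h2)
  have hnotD : ∀ (q : Q) (x : R), x ∉ D → q • x ∉ D := by
    intro q x hx h
    apply hx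
    have := hDQ q⁻¹ _ h
    rwa [inv_smul_smul] at this
  have hcc1 : ∀ x, cc (inv x) = - cc x := by
    intro x
    by_cases h : x ∈ D
    · simp only [cc, if_pos h, if_pos (hDi x h), hG, hc', Int.cast_neg]
    · have h2 : inv x ∉ D := by
        intro h3
        apply h
        have := hDi _ h3
        rwa [hinv] at this
      simp only [cc, if_neg h, if_neg h2, neg_zero]
  have hccrel : ∀ (q : Q) (Φ : Finset R), IsHalf inv Φ → ∑ x ∈ Φ, cc x * uu (q • x) = 0 := by
    intro q Φ hΦ
    have h1 := congrArg (fun t : ℤ => (t : ZMod r)) (hhalf g₀ ((q : P) : G) Φ hΦ)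
    simp only [Int.cast_sum, Int.cast_mul, Int.cast_zero] at h1
    rw [← h1]
    refine Finset.sum_congr rfl fun x _ => ?_
    by_cases h : x ∈ D
    · simp only [cc, if_pos h]
      rfl
    · have h2 : uu (q • x) = 0 := hud _ (hnotD q x h)
      have h3 : ((u (((q : P) : G) • x) : ℤ) : ZMod r) = 0 := h2
      rw [h2, h3, mul_zero, mul_zero]
  have hcc0 : ∃ x, cc x ≠ 0 := by
    refine ⟨x₀, ?_⟩
    have h1 : x₀ ∈ D := Or.inl hx₀O
    simp only [cc, if_pos h1]
    rw [Ne, ZMod.intCast_zmod_eq_zero_iff_dvd]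
    exact hx₁
  have hccD : ∀ x, x ∉ D → cc x = 0 := fun x hx => by simp only [cc, if_neg hx]
  have hmain := fun (Φ : Finset R) (hΦ : IsHalf inv Φ) htr hs =>
    no_relation hinv hQi r Q.isPGroup' D hDQ hDi uu cc hcc1 hccD hcc0 hccrel Φ hΦ htr hs
  obtain ⟨Φ, hΦ⟩ := exists_isHalf hinv hne
  rcases hsum with ⟨h1, h2⟩ | ⟨h1, h2⟩
  · -- the orbit and its conjugate are disjoint
    have hno : ∀ x ∈ O, inv x ∉ O := by
      intro x hx hx'
      apply h1
      obtain ⟨q, hq⟩ := htrO x hx x₀ hx₀O
      rw [← hq, ← hQi]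
      exact hQO q _ hx'
    refine hmain (O ∪ Φ.filter (· ∉ D)) ?_ ?_ ?_
    · intro x
      simp only [Finset.mem_union, Finset.mem_filter, not_or, not_and, not_not]
      constructor
      · rintro (hx | ⟨hx, hxD⟩)
        · exact ⟨hno x hx, fun _ => hDi x (Or.inl hx)⟩
        · refine ⟨fun h => hxD (Or.inr h), fun h => absurd h ((hΦ x).1 hx)⟩
      · rintro ⟨hx, hx2⟩
        by_cases hxD : x ∈ D
        · rcases hxD with h | h
          · exact Or.inl h
          · exact absurd h hx
        · refine Or.inr ⟨?_, hxD⟩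
          rw [hΦ x]
          intro h
          apply hxD
          have := hDi _ (hx2 h)
          rwa [hinv] at this
    · intro x hx hxD y hy hyD
      have hx' : x ∈ O := by
        rcases Finset.mem_union.1 hx with h | h
        · exact h
        · exact absurd hxD (Finset.mem_filter.1 h).2
      have hy' : y ∈ O := by
        rcases Finset.mem_union.1 hy with h | h
        · exact h
        · exact absurd hyD (Finset.mem_filter.1 h).2
      obtain ⟨q, hq⟩ := htrO x hx' y hy'
      exact ⟨q, Or.inl hq⟩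
    · have h3 : (O ∪ Φ.filter (· ∉ D)).filter (· ∈ D) = O := by
        ext x
        simp only [Finset.mem_filter, Finset.mem_union]
        constructor
        · rintro ⟨h | h, h'⟩
          · exact h
          · exact absurd h' h.2
        · intro h
          exact ⟨Or.inl h, Or.inl h⟩
      rw [h3]
      intro h4
      apply h2
      rw [← ZMod.intCast_zmod_eq_zero_iff_dvd]
      push_cast
      exact h4
  · -- the orbit is stable under conjugation
    have hsame : ∀ x ∈ O, inv x ∈ O := by
      intro x hx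
      obtain ⟨q, hq⟩ := htrO x₀ hx₀O x hx
      rw [← hq, ← hQi]
      exact hQO q _ h1
    have hDO : ∀ x, x ∈ D ↔ x ∈ O := by
      intro x
      constructor
      · rintro (h | h)
        · exact h
        · have := hsame _ h
          rwa [hinv] at this
      · exact fun h => Or.inl h
    have h2O : (2 : ℕ) ∣ O.card := by
      have h3 : ∑ x ∈ O, (1 : ZMod 2) = 0 := by
        refine Finset.sum_involution (fun x _ => inv x) ?_ ?_ ?_ ?_
        · intro x _
          decide
        · intro x _ _
          exact hne x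
        · intro x hx
          exact hsame x hx
        · intro x _
          exact hinv x
      rw [Finset.sum_const, nsmul_eq_mul, mul_one, ZMod.natCast_eq_zero_iff] at h3
      exact h3
    have hOc : O.card = r ^ k := by
      rw [← hcard, ← Set.ncard_coe_finset]
      congr 1
      ext x
      exact hO x
    have hr2 : r = 2 := by
      rw [hOc] at h2O
      have := Nat.prime_two.dvd_of_dvd_pow h2O
      exact ((Nat.prime_dvd_prime_iff_eq Nat.prime_two (Fact.out : r.Prime)).1 this).symm
    refine hmain Φ hΦ ?_ ?_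
    · intro x _ hxD y _ hyD
      obtain ⟨q, hq⟩ := htrO x ((hDO x).1 hxD) y ((hDO y).1 hyD)
      exact ⟨q, Or.inl hq⟩
    · intro h4
      apply h2
      -- the sum over `O` is twice the sum over the half
      have h5 : ∑ x ∈ O, m x = ∑ x ∈ Φ.filter (· ∈ D), m x + ∑ x ∈ Φ.filter (· ∈ D), m x := by
        have h6 := hΦ.sum_symm hinv (fun x => if x ∈ D then m x else 0) (fun x => by
          by_cases h : x ∈ D
          · rw [if_pos h, if_pos (hDi x h), hm]
          · have h2 : inv x ∉ D := by
              intro h3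
              apply h
              have := hDi _ h3
              rwa [hinv] at this
            rw [if_neg h, if_neg h2])
        rw [Finset.sum_filter, ← h6, ← Finset.sum_filter]
        refine Finset.sum_congr ?_ fun _ _ => rfl
        ext x
        rw [Finset.mem_filter, hDO]
        exact ⟨fun h => ⟨Finset.mem_univ _, h⟩, fun h => h.2⟩
      have h7 : (2 : ℤ) ∣ ∑ x ∈ Φ.filter (· ∈ D), m x := by
        have h8 : ((∑ x ∈ Φ.filter (· ∈ D), m x : ℤ) : ZMod 2) = 0 := by
          subst hr2
          rw [← h4]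
          push_cast
          refine Finset.sum_congr rfl fun x _ => ?_
          change ((m x : ℤ) : ZMod 2) = ((u x : ℤ) : ZMod 2)
          rcases hmu x with h | h
          · rw [h]
          · rw [h, Int.cast_neg]
            exact (ZMod.neg_eq_self_mod_two _).symm
        exact (ZMod.intCast_zmod_eq_zero_iff_dvd _ 2).1 h8
      rw [h5]
      obtain ⟨t, ht⟩ := h7
      exact ⟨t, by rw [ht]; ring⟩

end Pool.Agent.Zk39.NP
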