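import Mathlib
import Pool.Agent.Zk39.NP.Local

/-!
# A dominating pair, and the parity of the weights
-/

set_option autoImplicit false

namespace Pool.Agent.Zk39.NP

open MulAction Pool.Agent.H925R2

variable {R : Type*} [Fintype R] {inv : R → R} {G : Type*} [Group G] [MulAction G R]

/-- **Dominating pair.** If one value of `u` is larger than the sum of the others (one out of each
conjugate pair) there is no relation between the translates of `u`. -/
theorem core_dominant [DecidableEq R] [IsPretransitive G R] (hne : ∀ x, inv x ≠ x)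
    (hG : ∀ (g : G) (x : R), g • inv x = inv (g • x)) (u c : R → ℤ)
    (hu : ∀ x, u (inv x) = -u x) (hc : ∀ x, c (inv x) = -c x) (x₀ : R)
    (hdom : ∑ x, |u x| < 4 * |u x₀|) (hrel : ∀ g : G, ∑ x, c (g • x) * u x = 0) :
    ∀ x, c x = 0 := by
  classical
  have _ : Nonempty R := ⟨x₀⟩
  obtain ⟨x₁, hx₁⟩ := Finite.exists_max (fun x => |c x|)
  obtain ⟨g, hg⟩ := exists_smul_eq G x₀ x₁
  suffices h : c x₁ = 0 by
    intro x
    have h1 := hx₁ x
    rw [h, abs_zero] at h1
    exact abs_nonpos_iff.1 h1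
  by_contra h0
  have hpos : 0 < |c x₁| := abs_pos.2 h0
  have h1 := hrel g
  rw [← Finset.sum_add_sum_compl {x₀, inv x₀}, Finset.sum_pair (hne x₀).symm, hG, hg, hc, hu] at h1
  have h2 : |∑ x ∈ ({x₀, inv x₀} : Finset R)ᶜ, c (g • x) * u x| ≤
      |c x₁| * ∑ x ∈ ({x₀, inv x₀} : Finset R)ᶜ, |u x| := by
    rw [Finset.mul_sum]
    refine (Finset.abs_sum_le_sum_abs _ _).trans (Finset.sum_le_sum fun x _ => ?_)
    rw [abs_mul]
    exact mul_le_mul_of_nonneg_right (hx₁ _) (abs_nonneg _)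
  have h3 : ∑ x, |u x| = 2 * |u x₀| + ∑ x ∈ ({x₀, inv x₀} : Finset R)ᶜ, |u x| := by
    rw [← Finset.sum_add_sum_compl {x₀, inv x₀}, Finset.sum_pair (hne x₀).symm, hu, abs_neg]
    ring
  have h4 : ∑ x ∈ ({x₀, inv x₀} : Finset R)ᶜ, c (g • x) * u x = -(2 * (c x₁ * u x₀)) := by
    linarith
  rw [h4, abs_neg, abs_mul, abs_mul, abs_two] at h2
  have h5 : ∑ x ∈ ({x₀, inv x₀} : Finset R)ᶜ, |u x| < 2 * |u x₀| := by linarith
  have h6 := mul_lt_mul_of_pos_left h5 hpos
  linarith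

/-- The sums of a symmetric function over two halves are equal. -/
theorem half_sum_eq [DecidableEq R] (hinv : ∀ x, inv (inv x) = x) {Φ Φ' : Finset R}
    (hΦ : IsHalf inv Φ) (hΦ' : IsHalf inv Φ') {A : Type*} [AddCommMonoid A] (F : R → A)
    (hF : ∀ x, F (inv x) = F x) : ∑ x ∈ Φ, F x = ∑ x ∈ Φ', F x := by
  have hmem : ∀ {Ψ : Finset R}, IsHalf inv Ψ → ∀ x, x ∉ Ψ → inv x ∈ Ψ := by
    intro Ψ hΨ x hx
    by_contra h
    exact hx ((hΨ x).2 h)
  refine Finset.sum_nbij' (fun x => if x ∈ Φ' then x else inv x)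
    (fun x => if x ∈ Φ then x else inv x) ?_ ?_ ?_ ?_ ?_
  · intro x _
    by_cases h : x ∈ Φ'
    · rwa [if_pos h]
    · rw [if_neg h]
      exact hmem hΦ' x h
  · intro x _
    by_cases h : x ∈ Φ
    · rwa [if_pos h]
    · rw [if_neg h]
      exact hmem hΦ x h
  · intro x hx
    by_cases h : x ∈ Φ'
    · rw [if_pos h, if_pos hx]
    · rw [if_neg h, if_neg ((hΦ x).1 hx), hinv]
  · intro x hx
    by_cases h : x ∈ Φ
    · rw [if_pos h, if_pos hx]
    · rw [if_neg h, if_neg ((hΦ' x).1 hx), hinv]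
  · intro x _
    by_cases h : x ∈ Φ'
    · rw [if_pos h]
    · rw [if_neg h, hF]

/-- **Parity.** If `u` is even at exactly one conjugate pair and the number of the pairs is even there
is no relation between the translates of `u`. -/
theorem core_parity [DecidableEq R] [IsPretransitive G R] (hinv : ∀ x, inv (inv x) = x)
    (hne : ∀ x, inv x ≠ x) (hG : ∀ (g : G) (x : R), g • inv x = inv (g • x))
    (hcard : 4 ∣ Fintype.card R) (u c : R → ℤ)
    (hu : ∀ x, u (inv x) = -u x) (hc : ∀ x, c (inv x) = -c x) (x₀ : R) (he : Even (u x₀))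
    (ho : ∀ x, x ≠ x₀ → x ≠ inv x₀ → Odd (u x)) (hrel : ∀ g : G, ∑ x, c (g • x) * u x = 0) :
    ∀ x, c x = 0 := by
  classical
  have _ : Fact (Nat.Prime 2) := ⟨Nat.prime_two⟩
  by_contra hcon
  push Not at hcon
  obtain ⟨d, c', hd, hcc, x₁, hx₁⟩ := exists_primitive 2 c hcon
  have hc' : ∀ x, c' (inv x) = - c' x := by
    intro x
    have := hc x
    rw [hcc, hcc] at this
    apply mul_left_cancel₀ hd
    rw [this]; ring
  have hrel' : ∀ g : G, ∑ x, c' (g • x) * u x = 0 := by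
    intro g
    apply mul_left_cancel₀ hd
    rw [mul_zero, Finset.mul_sum, ← hrel g]
    refine Finset.sum_congr rfl fun x _ => ?_
    rw [hcc]; ring
  obtain ⟨Φ, hΦ⟩ := exists_isHalf hinv hne
  have hhalf : ∀ g : G, ∑ x ∈ Φ, c' (g • x) * u x = 0 := by
    intro g
    have h1 := hΦ.sum_symm hinv (fun x => c' (g • x) * u x) (fun x => by
      simp only [hc', hG, hu]; ring)
    rw [hrel' g] at h1
    omega
  obtain ⟨y₀, hy₀, hey, hoy⟩ : ∃ y₀ ∈ Φ, Even (u y₀) ∧ ∀ x ∈ Φ, x ≠ y₀ → Odd (u x) := by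
    by_cases h : x₀ ∈ Φ
    · refine ⟨x₀, h, he, fun x hx hxx => ho x hxx ?_⟩
      rintro rfl
      exact (hΦ x₀).1 h hx
    · have h' : inv x₀ ∈ Φ := by
        by_contra h2
        exact h ((hΦ x₀).2 h2)
      refine ⟨inv x₀, h', by rw [hu]; exact he.neg, fun x hx hxx => ho x ?_ hxx⟩
      rintro rfl
      exact h hx
  let w : R → ZMod 2 := fun x => ((c' x : ℤ) : ZMod 2)
  have hw : ∀ x, w (inv x) = w x := by
    intro x
    simp only [w, hc', Int.cast_neg]
    exact ZMod.neg_eq_self_mod_two _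
  have hgΦ : ∀ g : G, IsHalf inv (Φ.image (fun x => g • x)) := by
    intro g x
    simp only [Finset.mem_image, not_exists, not_and]
    constructor
    · rintro ⟨y, hy, rfl⟩ z hz hzy
      have : z = inv y := by
        have h := congrArg (fun t => g⁻¹ • t) hzy
        simpa [hG] using h
      rw [this] at hz
      exact ((hΦ y).1 hy) hz
    · intro h
      refine ⟨g⁻¹ • x, ?_, by simp⟩
      rw [hΦ (g⁻¹ • x)]
      intro h'
      exact h _ h' (by rw [hG]; simp)
  have hT : ∀ g : G, ∑ x ∈ Φ, w (g • x) = ∑ x ∈ Φ, w x := by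
    intro g
    rw [half_sum_eq hinv hΦ (hgΦ g) w hw, Finset.sum_image (by
      intro a _ b _ hab
      exact smul_left_cancel _ hab)]
  have hval : ∀ g : G, w (g • y₀) = ∑ x ∈ Φ, w x := by
    intro g
    have h1 := congrArg (fun t : ℤ => (t : ZMod 2)) (hhalf g)
    simp only [Int.cast_sum, Int.cast_mul, Int.cast_zero] at h1
    rw [← hT g, ← Finset.add_sum_erase Φ _ hy₀]
    rw [← Finset.add_sum_erase Φ _ hy₀] at h1
    have h2 : ((u y₀ : ℤ) : ZMod 2) = 0 := (ZMod.intCast_zmod_eq_zero_iff_dvd _ 2).2 hey.two_dvd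
    have h3 : ∑ x ∈ Φ.erase y₀, ((c' (g • x) : ℤ) : ZMod 2) * ((u x : ℤ) : ZMod 2) =
        ∑ x ∈ Φ.erase y₀, w (g • x) := by
      refine Finset.sum_congr rfl fun x hx => ?_
      have h4 := hoy x (Finset.mem_of_mem_erase hx) (Finset.ne_of_mem_erase hx)
      obtain ⟨b, hb⟩ := h4
      have h5 : ((u x : ℤ) : ZMod 2) = 1 := by
        rw [hb]
        push_cast
        have : (2 : ZMod 2) = 0 := rfl
        rw [this, zero_mul, zero_add]
      rw [h5, mul_one]
    rw [h2, mul_zero, zero_add, h3] at h1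
    rw [h1, add_zero]
  have hall : ∀ x, w x = ∑ y ∈ Φ, w y := by
    intro x
    obtain ⟨g, rfl⟩ := exists_smul_eq G y₀ x
    exact hval g
  have hTz : ∑ y ∈ Φ, w y = 0 := by
    have h1 : ∑ y ∈ Φ, w y = ∑ y ∈ Φ, ∑ z ∈ Φ, w z := Finset.sum_congr rfl fun y _ => hall y
    rw [h1, Finset.sum_const, nsmul_eq_mul]
    have h2 := hΦ.card hinv
    have h3 : (2 : ℕ) ∣ Φ.card := by omega
    rw [(ZMod.natCast_eq_zero_iff _ _).2 h3, zero_mul]
  have h1 := hall x₁
  rw [hTz] at h1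
  exact hx₁ ((ZMod.intCast_zmod_eq_zero_iff_dvd _ 2).1 h1)

end Pool.Agent.Zk39.NP
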