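import Mathlib
import Pool.Agent.Zk39.NP.Dom

/-!
# Orbits of conjugate pairs: all sums with signs, and parity, localised
-/

set_option autoImplicit false

namespace Pool.Agent.Zk39.NP

open MulAction Pool.Agent.H925R2

variable {R : Type*} [Fintype R] {inv : R → R} {G : Type*} [Group G] [MulAction G R]

/-- A Sylow subgroup is transitive on the conjugate pairs, if there are `r ^ k` of them. -/
theorem sylow_pairs_local [DecidableEq R] [Finite G] (hinv : ∀ x, inv (inv x) = x)
    (hne : ∀ x, inv x ≠ x) (hG : ∀ (g : G) (x : R), g • inv x = inv (g • x)) (r k : ℕ)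
    [Fact r.Prime] (P : Subgroup G) (x₀ : R)
    (hcard : {x | x ∈ orbit P x₀ ∨ inv x ∈ orbit P x₀}.ncard = 2 * r ^ k) (Q : Sylow r P)
    (x y : R) (hx : x ∈ orbit P x₀ ∨ inv x ∈ orbit P x₀)
    (hy : y ∈ orbit P x₀ ∨ inv y ∈ orbit P x₀) :
    ∃ q : Q, ((q : P) : G) • x = y ∨ ((q : P) : G) • x = inv y := by
  classical
  -- reduction to the orbit
  suffices h : ∀ x ∈ orbit P x₀, ∀ y ∈ orbit P x₀, ∃ q : Q, ((q : P) : G) • x = y ∨
      ((q : P) : G) • x = inv y by
    rcases hx with hx | hx <;> rcases hy with hy | hy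
    · exact h x hx y hy
    · obtain ⟨q, hq | hq⟩ := h x hx _ hy
      · exact ⟨q, Or.inr hq⟩
      · exact ⟨q, Or.inl (by rw [hq, hinv])⟩
    · obtain ⟨q, hq | hq⟩ := h _ hx y hy
      · exact ⟨q, Or.inr (by rw [← hinv (((q : P) : G) • x), ← hG, hq])⟩
      · refine ⟨q, Or.inl ?_⟩
        rw [hG] at hq
        rw [← hinv (((q : P) : G) • x), hq, hinv]
    · obtain ⟨q, hq | hq⟩ := h _ hx _ hy
      · refine ⟨q, Or.inl ?_⟩
        rw [hG] at hq
        rw [← hinv (((q : P) : G) • x), hq, hinv]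
      · refine ⟨q, Or.inr ?_⟩
        rw [hG] at hq
        rw [← hinv (((q : P) : G) • x), hq, hinv]
  by_cases h0 : inv x₀ ∈ orbit P x₀
  · -- the orbit is stable under the involution
    have hst : ∀ x ∈ orbit P x₀, inv x ∈ orbit P x₀ := by
      rintro x ⟨p, rfl⟩
      change inv ((p : G) • x₀) ∈ orbit P x₀
      rw [← hG]
      have h1 : p • inv x₀ ∈ orbit P (inv x₀) := ⟨p, rfl⟩
      rw [orbit_eq_iff.2 h0] at h1
      exact h1
    have hset : {x | x ∈ orbit P x₀ ∨ inv x ∈ orbit P x₀} = orbit P x₀ := by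
      ext x
      constructor
      · rintro (h | h)
        · exact h
        · have := hst _ h
          rwa [hinv] at this
      · exact fun h => Or.inl h
    rw [hset] at hcard
    let iv : orbit P x₀ → orbit P x₀ := fun x => ⟨inv x.1, hst x.1 x.2⟩
    intro x hx y hy
    have _ : Fintype (orbit P x₀) := Fintype.ofFinite _
    obtain ⟨q, hq⟩ := sylow_pairs (G := P) (R := orbit P x₀) (inv := iv)
      (fun x => Subtype.ext (hinv x.1)) (fun x h => hne x.1 (congrArg Subtype.val h))
      (fun g x => Subtype.ext (hG (g : G) x.1)) r k (by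
        rw [← hcard, ← Nat.card_coe_set_eq, Nat.card_eq_fintype_card]) Q ⟨x, hx⟩ ⟨y, hy⟩
    rcases hq with hq | hq
    · exact ⟨q, Or.inl (congrArg Subtype.val hq)⟩
    · exact ⟨q, Or.inr (congrArg Subtype.val hq)⟩
  · -- the orbit and its conjugate are disjoint
    have hno : ∀ x ∈ orbit P x₀, inv x ∉ orbit P x₀ := by
      rintro x ⟨p, rfl⟩ h
      change inv ((p : G) • x₀) ∈ orbit P x₀ at h
      rw [← hG] at h
      apply h0
      have h1 : p⁻¹ • (p • inv x₀) ∈ orbit P x₀ := by
        obtain ⟨p', hp'⟩ := h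
        refine ⟨p⁻¹ * p', ?_⟩
        change (p⁻¹ * p') • x₀ = p⁻¹ • (p • inv x₀)
        rw [mul_smul]
        congr 1
      rwa [inv_smul_smul] at h1
    have hset : {x | x ∈ orbit P x₀ ∨ inv x ∈ orbit P x₀} =
        orbit P x₀ ∪ inv '' orbit P x₀ := by
      ext x
      constructor
      · rintro (h | h)
        · exact Or.inl h
        · exact Or.inr ⟨inv x, h, hinv x⟩
      · rintro (h | ⟨y, hy, rfl⟩)
        · exact Or.inl h
        · exact Or.inr (by rwa [hinv])
    have hinj : Function.Injective inv := fun a b h => by rw [← hinv a, h, hinv]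
    have hdisj : Disjoint (orbit P x₀) (inv '' orbit P x₀) := by
      rw [Set.disjoint_left]
      rintro x hx ⟨y, hy, rfl⟩
      exact hno y hy hx
    rw [hset, Set.ncard_union_eq hdisj (Set.toFinite _) (Set.toFinite _),
      Set.ncard_image_of_injective _ hinj] at hcard
    have hB : Nat.card (orbit P x₀) = r ^ k := by
      rw [Nat.card_coe_set_eq]
      omega
    intro x hx y hy
    obtain ⟨q, hq⟩ := sylow_transitive (G := P) (B := orbit P x₀) r k hB Q ⟨x, hx⟩ ⟨y, hy⟩
    exact ⟨q, Or.inl (congrArg Subtype.val hq)⟩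

/-- **Local sums.** Suppose that `u` is divisible by `r` outside of the orbit `D` of `r ^ k` conjugate
pairs and that no half of `D` has a sum divisible by `r`. Then there is no relation between the
translates of `u`. -/
theorem core_sums [DecidableEq R] [Finite G] [IsPretransitive G R] (hinv : ∀ x, inv (inv x) = x)
    (hne : ∀ x, inv x ≠ x) (hG : ∀ (g : G) (x : R), g • inv x = inv (g • x)) (r k : ℕ)
    [Fact r.Prime] (P : Subgroup G) (x₀ : R) (D : Finset R)
    (hD : ∀ x, x ∈ D ↔ x ∈ orbit P x₀ ∨ inv x ∈ orbit P x₀) (hcard : D.card = 2 * r ^ k)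
    (u c : R → ℤ) (hu : ∀ x, u (inv x) = -u x) (hc : ∀ x, c (inv x) = -c x)
    (hloc : ∀ x, x ∉ D → (r : ℤ) ∣ u x)
    (hsum : ∀ Ψ : Finset R, IsHalf inv Ψ → ¬ (r : ℤ) ∣ ∑ x ∈ Ψ.filter (· ∈ D), u x)
    (hrel : ∀ g : G, ∑ x, c (g • x) * u x = 0) : ∀ x, c x = 0 := by
  classical
  by_contra hcon
  push Not at hcon
  obtain ⟨d, c', hd, hcc, x₁, hx₁⟩ := exists_primitive r c hcon
  obtain ⟨g₀, rfl⟩ := exists_smul_eq G x₀ x₁
  have hc' : ∀ x, c' (inv x) = - c' x := by
    intro x
    have := hc x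
    rw [hcc, hcc] at this
    apply mul_left_cancel₀ hd
    rw [this]; ring
  have hrel' : ∀ g : G, ∑ x, c' (g • x) * u x = 0 := by
    intro g
    apply mul_left_cancel₀ hd
    rw [mul_zero, Finset.mul_sum, ← hrel g]
    refine Finset.sum_congr rfl fun x _ => ?_
    rw [hcc]; ring
  have hhalf : ∀ (g h : G) (Φ : Finset R), IsHalf inv Φ → ∑ x ∈ Φ, c' (g • x) * u (h • x) = 0 := by
    intro g h Φ hΦ
    have h1 := hΦ.sum_symm hinv (fun x => c' (g • x) * u (h • x)) (fun x => by
      simp only [hc', hG, hu]; ring)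
    have h2 : ∑ x, c' (g • x) * u (h • x) = 0 := by
      rw [← hrel' (g * h⁻¹)]
      refine Fintype.sum_equiv (MulAction.toPerm h) _ _ fun x => ?_
      simp only [MulAction.toPerm_apply, mul_smul, inv_smul_smul]
    rw [h2] at h1
    omega
  obtain ⟨Q⟩ : Nonempty (Sylow r P) := inferInstance
  have hQO : ∀ (q : Q) (x : R), x ∈ orbit P x₀ → q • x ∈ orbit P x₀ := by
    rintro q x ⟨p, rfl⟩
    exact ⟨(q : P) * p, by simp only [mul_smul]; rfl⟩
  have hQi : ∀ (q : Q) (x : R), q • inv x = inv (q • x) := fun q x => hG _ x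
  have hDi : ∀ x ∈ (D : Set R), inv x ∈ (D : Set R) := by
    intro x hx
    rw [Finset.mem_coe, hD] at hx ⊢
    rcases hx with h | h
    · exact Or.inr (by rw [hinv]; exact h)
    · exact Or.inl h
  have hDQ : ∀ (q : Q) (x : R), x ∈ (D : Set R) → q • x ∈ (D : Set R) := by
    intro q x hx
    rw [Finset.mem_coe, hD] at hx ⊢
    rcases hx with h | h
    · exact Or.inl (hQO q x h)
    · refine Or.inr ?_
      rw [← hQi]
      exact hQO q _ h
  have hx₀D : x₀ ∈ (D : Set R) := by
    rw [Finset.mem_coe, hD]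
    exact Or.inl (mem_orbit_self x₀)
  let cc : R → ZMod r := fun x => if x ∈ (D : Set R) then ((c' (g₀ • x) : ℤ) : ZMod r) else 0
  let uu : R → ZMod r := fun x => ((u x : ℤ) : ZMod r)
  have hud : ∀ x, x ∉ (D : Set R) → uu x = 0 := fun x hx =>
    (ZMod.intCast_zmod_eq_zero_iff_dvd _ _).2 (hloc x hx)
  have hnotD : ∀ (q : Q) (x : R), x ∉ (D : Set R) → q • x ∉ (D : Set R) := by
    intro q x hx h
    apply hx
    have := hDQ q⁻¹ _ h
    rwa [inv_smul_smul] at this
  have hcc1 : ∀ x, cc (inv x) = - cc x := by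
    intro x
    by_cases h : x ∈ (D : Set R)
    · simp only [cc, if_pos h, if_pos (hDi x h), hG, hc', Int.cast_neg]
    · have h2 : inv x ∉ (D : Set R) := by
        intro h3
        apply h
        have := hDi _ h3
        rwa [hinv] at this
      simp only [cc, if_neg h, if_neg h2, neg_zero]
  have hccrel : ∀ (q : Q) (Φ : Finset R), IsHalf inv Φ → ∑ x ∈ Φ, cc x * uu (q • x) = 0 := by
    intro q Φ hΦ
    have h1 := congrArg (fun t : ℤ => (t : ZMod r)) (hhalf g₀ ((q : P) : G) Φ hΦ)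
    simp only [Int.cast_sum, Int.cast_mul, Int.cast_zero] at h1
    rw [← h1]
    refine Finset.sum_congr rfl fun x _ => ?_
    by_cases h : x ∈ (D : Set R)
    · simp only [cc, if_pos h]
      rfl
    · have h2 : uu (q • x) = 0 := hud _ (hnotD q x h)
      have h3 : ((u (((q : P) : G) • x) : ℤ) : ZMod r) = 0 := h2
      rw [h2, h3, mul_zero, mul_zero]
  have hcc0 : ∃ x, cc x ≠ 0 := by
    refine ⟨x₀, ?_⟩
    simp only [cc, if_pos hx₀D]
    rw [Ne, ZMod.intCast_zmod_eq_zero_iff_dvd]
    exact hx₁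
  have hccD : ∀ x, x ∉ (D : Set R) → cc x = 0 := fun x hx => by simp only [cc, if_neg hx]
  obtain ⟨f, ⟨y, hy⟩, hf1, hf2, hf3, hf4⟩ :=
    exists_fixed hinv hQi r Q.isPGroup' (D : Set R) hDQ uu cc hcc1 hccD hcc0 hccrel
  have hyD : y ∈ (D : Set R) := by
    by_contra h
    exact hy (hf2 y h)
  have hset : {x | x ∈ orbit P x₀ ∨ inv x ∈ orbit P x₀} = (D : Set R) := by
    ext x
    rw [Finset.mem_coe, hD]
    rfl
  have hpm : ∀ x ∈ (D : Set R), f x = f y ∨ f x = - f y := by
    intro x hx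
    obtain ⟨q, hq | hq⟩ := sylow_pairs_local hinv hne hG r k P x₀
      (by rw [hset, Set.ncard_coe_finset, hcard]) Q y x ((hD y).1 hyD) ((hD x).1 hx)
    · left
      rw [← hf3 q y]
      exact congrArg f hq.symm
    · right
      have h1 : f (inv x) = f y := by
        rw [← hf3 q y]
        exact congrArg f hq.symm
      rw [← h1, hf1, neg_neg]
  obtain ⟨Φ, hΦ⟩ := exists_isHalf hinv hne
  obtain ⟨Ψ, hΨ, hΨc⟩ : ∃ Ψ : Finset R, IsHalf inv Ψ ∧ ∀ x ∈ Ψ, x ∈ (D : Set R) → f x = f y := by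
    by_cases h2 : f y = - f y
    · refine ⟨Φ, hΦ, fun x _ hx => ?_⟩
      rcases hpm x hx with h | h
      · exact h
      · rw [h, ← h2]
    · refine ⟨Finset.univ.filter (fun x => (x ∈ (D : Set R) ∧ f x = f y) ∨
        (x ∉ (D : Set R) ∧ x ∈ Φ)), fun x => ?_, fun x hx hxD => ?_⟩
      · simp only [Finset.mem_filter, Finset.mem_univ, true_and]
        by_cases hxD : x ∈ (D : Set R)
        · have hiD := hDi x hxD
          simp only [hxD, hiD, true_and, not_true_eq_false, false_and, or_false, hf1]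
          constructor
          · intro h h'
            apply h2
            rw [h] at h'
            exact h'.symm
          · intro h
            rcases hpm x hxD with h' | h'
            · exact h'
            · exact absurd (by rw [h', neg_neg]) h
        · have hiD : inv x ∉ (D : Set R) := by
            intro h3
            apply hxD
            have := hDi _ h3
            rwa [hinv] at this
          simp only [hxD, hiD, false_and, not_false_eq_true, true_and, false_or]
          exact hΦ x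
      · rcases (Finset.mem_filter.1 hx).2 with h | h
        · exact h.2
        · exact absurd hxD h.1
  have h1 := hf4 Ψ hΨ
  have h2 : ∑ x ∈ Ψ, f x * uu x = f y * ∑ x ∈ Ψ.filter (· ∈ D), uu x := by
    rw [Finset.mul_sum, Finset.sum_filter]
    refine Finset.sum_congr rfl fun x hx => ?_
    split_ifs with h
    · rw [hΨc x hx h]
    · rw [hf2 x h, zero_mul]
  rw [h2] at h1
  rcases mul_eq_zero.1 h1 with h | h
  · exact hy h
  · apply hsum Ψ hΨ
    rw [← ZMod.intCast_zmod_eq_zero_iff_dvd]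
    push_cast
    exact h

/-- **Local parity.** If `u` is even outside of an orbit `D` of an even number of conjugate pairs and
at exactly one pair of `D`, there is no relation between the translates of `u`. -/
theorem core_parity_local [DecidableEq R] [IsPretransitive G R] (hinv : ∀ x, inv (inv x) = x)
    (hne : ∀ x, inv x ≠ x) (hG : ∀ (g : G) (x : R), g • inv x = inv (g • x)) (P : Subgroup G)
    (x₀ : R) (D : Finset R) (hD : ∀ x, x ∈ D ↔ x ∈ orbit P x₀ ∨ inv x ∈ orbit P x₀)
    (hcard : 4 ∣ D.card) (u c : R → ℤ)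
    (hu : ∀ x, u (inv x) = -u x) (hc : ∀ x, c (inv x) = -c x) (he : Even (u x₀))
    (ho : ∀ x ∈ D, x ≠ x₀ → x ≠ inv x₀ → Odd (u x)) (hloc : ∀ x, x ∉ D → Even (u x))
    (hrel : ∀ g : G, ∑ x, c (g • x) * u x = 0) :
    ∀ x, c x = 0 := by
  classical
  have _ : Fact (Nat.Prime 2) := ⟨Nat.prime_two⟩
  by_contra hcon
  push Not at hcon
  obtain ⟨d, c', hd, hcc, x₁, hx₁⟩ := exists_primitive 2 c hcon
  obtain ⟨g₀, rfl⟩ := exists_smul_eq G x₀ x₁
  have hc' : ∀ x, c' (inv x) = - c' x := by
    intro x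
    have := hc x
    rw [hcc, hcc] at this
    apply mul_left_cancel₀ hd
    rw [this]; ring
  have hrel' : ∀ g : G, ∑ x, c' (g • x) * u x = 0 := by
    intro g
    apply mul_left_cancel₀ hd
    rw [mul_zero, Finset.mul_sum, ← hrel g]
    refine Finset.sum_congr rfl fun x _ => ?_
    rw [hcc]; ring
  have hDi : ∀ x ∈ D, inv x ∈ D := by
    intro x hx
    rw [hD] at hx ⊢
    rcases hx with h | h
    · exact Or.inr (by rw [hinv]; exact h)
    · exact Or.inl h
  have hx₀D : x₀ ∈ D := by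
    rw [hD]
    exact Or.inl (mem_orbit_self x₀)
  have hDP : ∀ (q : P) (x : R), x ∈ D → (q : G) • x ∈ D := by
    intro q x hx
    rw [hD] at hx ⊢
    have key : ∀ z, z ∈ orbit P x₀ → (q : G) • z ∈ orbit P x₀ := by
      rintro z ⟨p, rfl⟩
      exact ⟨q * p, by simp only [mul_smul]; rfl⟩
    rcases hx with h | h
    · exact Or.inl (key x h)
    · refine Or.inr ?_
      rw [← hG]
      exact key _ h
  -- a half that contains `x₀`
  obtain ⟨Φ, hΦ, hx₀Φ⟩ : ∃ Φ : Finset R, IsHalf inv Φ ∧ x₀ ∈ Φ := by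
    obtain ⟨Φ, hΦ⟩ := exists_isHalf hinv hne
    by_cases h : x₀ ∈ Φ
    · exact ⟨Φ, hΦ, h⟩
    · refine ⟨Φᶜ, fun x => ?_, Finset.mem_compl.2 h⟩
      rw [Finset.mem_compl, Finset.mem_compl, hΦ x]
  have hhalf : ∀ g : G, ∑ x ∈ Φ, c' (g • x) * u x = 0 := by
    intro g
    have h1 := hΦ.sum_symm hinv (fun x => c' (g • x) * u x) (fun x => by
      simp only [hc', hG, hu]; ring)
    rw [hrel' g] at h1
    omega
  let w : R → ZMod 2 := fun x => ((c' (g₀ • x) : ℤ) : ZMod 2)
  let v : R → ZMod 2 := fun x => if x ∈ D then w x else 0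
  have hw : ∀ x, w (inv x) = w x := by
    intro x
    simp only [w, hG, hc', Int.cast_neg]
    exact ZMod.neg_eq_self_mod_two _
  have hDi' : ∀ x, inv x ∈ D ↔ x ∈ D := fun x =>
    ⟨fun h => by have := hDi _ h; rwa [hinv] at this, hDi x⟩
  have hv : ∀ x, v (inv x) = v x := by
    intro x
    simp only [v, hw, hDi']
  have hDP' : ∀ (q : P) (x : R), (q : G) • x ∈ D ↔ x ∈ D := by
    intro q x
    refine ⟨fun h => ?_, hDP q x⟩
    have := hDP q⁻¹ _ h
    rwa [← mul_smul, ← Subgroup.coe_mul, inv_mul_cancel, Subgroup.coe_one, one_smul] at this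
  have hgΦ : ∀ g : G, IsHalf inv (Φ.image (fun x => g • x)) := by
    intro g x
    simp only [Finset.mem_image, not_exists, not_and]
    constructor
    · rintro ⟨y, hy, rfl⟩ z hz hzy
      have : z = inv y := by
        have h := congrArg (fun t => g⁻¹ • t) hzy
        simpa [hG] using h
      rw [this] at hz
      exact ((hΦ y).1 hy) hz
    · intro h
      refine ⟨g⁻¹ • x, ?_, by simp⟩
      rw [hΦ (g⁻¹ • x)]
      intro h'
      exact h _ h' (by rw [hG]; simp)
  have hT : ∀ q : P, ∑ x ∈ Φ, v ((q : G) • x) = ∑ x ∈ Φ, v x := by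
    intro q
    rw [half_sum_eq hinv hΦ (hgΦ (q : G)) v hv, Finset.sum_image (by
      intro a _ b _ hab
      exact smul_left_cancel _ hab)]
  have hval : ∀ q : P, w ((q : G) • x₀) = ∑ x ∈ Φ, v x := by
    intro q
    have h1 := congrArg (fun t : ℤ => (t : ZMod 2)) (hhalf (g₀ * (q : G)))
    simp only [Int.cast_sum, Int.cast_mul, Int.cast_zero, mul_smul] at h1
    rw [← hT q, ← Finset.add_sum_erase Φ _ hx₀Φ]
    rw [← Finset.add_sum_erase Φ _ hx₀Φ] at h1
    have h2 : ((u x₀ : ℤ) : ZMod 2) = 0 := (ZMod.intCast_zmod_eq_zero_iff_dvd _ 2).2 he.two_dvd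
    have h3 : ∑ x ∈ Φ.erase x₀, ((c' (g₀ • (q : G) • x) : ℤ) : ZMod 2) * ((u x : ℤ) : ZMod 2) =
        ∑ x ∈ Φ.erase x₀, v ((q : G) • x) := by
      refine Finset.sum_congr rfl fun x hx => ?_
      by_cases hxD : x ∈ D
      · have h4 := ho x hxD (Finset.ne_of_mem_erase hx) (by
          rintro rfl
          exact (hΦ x₀).1 hx₀Φ (Finset.mem_of_mem_erase hx))
        obtain ⟨b, hb⟩ := h4
        have h5 : ((u x : ℤ) : ZMod 2) = 1 := by
          rw [hb]
          push_cast
          have : (2 : ZMod 2) = 0 := rfl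
          rw [this, zero_mul, zero_add]
        rw [h5, mul_one]
        simp only [v, if_pos ((hDP' q x).2 hxD)]
        rfl
      · have h5 : ((u x : ℤ) : ZMod 2) = 0 :=
          (ZMod.intCast_zmod_eq_zero_iff_dvd _ 2).2 (hloc x hxD).two_dvd
        rw [h5, mul_zero]
        simp only [v, if_neg (fun h => hxD ((hDP' q x).1 h))]
    rw [h2, mul_zero, zero_add, h3] at h1
    rw [h1, add_zero]
    simp only [v, if_pos ((hDP' q x₀).2 hx₀D)]
  have hall : ∀ x ∈ D, w x = ∑ y ∈ Φ, v y := by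
    intro x hx
    rw [hD] at hx
    rcases hx with ⟨q, rfl⟩ | ⟨q, hq⟩
    · exact hval q
    · rw [← hw, ← hq]
      exact hval q
  have hTz : ∑ y ∈ Φ, v y = 0 := by
    have h1 : ∑ y ∈ Φ, v y = ∑ y ∈ Φ.filter (· ∈ D), w y := by
      rw [Finset.sum_filter]
    have h2 : ∑ y ∈ Φ.filter (· ∈ D), w y = ((Φ.filter (· ∈ D)).card : ZMod 2) * ∑ z ∈ Φ, v z := by
      rw [← nsmul_eq_mul, ← Finset.sum_const]
      refine Finset.sum_congr rfl fun y hy => hall y (Finset.mem_filter.1 hy).2
    have h3 : D.card = 2 * (Φ.filter (· ∈ D)).card := by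
      have h4 := hΦ.sum_symm hinv (fun x => if x ∈ D then 1 else 0) (fun x => by simp only [hDi'])
      rw [← Finset.sum_filter, ← Finset.sum_filter, ← Finset.card_eq_sum_ones,
        ← Finset.card_eq_sum_ones] at h4
      have h5 : Finset.univ.filter (· ∈ D) = D := by
        ext x
        simp
      rw [h5] at h4
      omega
    have h6 : (2 : ℕ) ∣ (Φ.filter (· ∈ D)).card := by omega
    rw [h1, h2, (ZMod.natCast_eq_zero_iff _ _).2 h6, zero_mul]
  have h1 := hall x₀ hx₀D
  rw [hTz] at h1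
  exact hx₁ ((ZMod.intCast_zmod_eq_zero_iff_dvd _ 2).1 h1)

end Pool.Agent.Zk39.NP
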