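import Mathlib
import Pool.Agent.TH170.MF.Main
import Pool.Agent.TH170.MF.Field
import Pool.Agent.H204R3.SP.CoreOddVal
import Pool.Agent.H204R3.CM.Sign
import Pool.Agent.H204R3.CM.Disc
import Pool.Agent.H204R3.CM.Nondeg
import Pool.Agent.H977R3.CM.Aut
import Pool.Agent.H977R3.CM.Defs
import Pool.Agent.Zk39.NP.Sums
import Pool.Agent.Zk39.NP.Defs

/-!
# Rigid slope types are not orthogonal to a Galois-stable space
-/

set_option autoImplicit false

namespace Pool.Agent.Zk39.NP

open NumberField Module MulAction Pool.Agent.H925R2 Pool.Agent.H204R3.CM Pool.Agent.H977R3.CM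
  Pool.Agent.TH170.CM Pool.Agent.TH170.MF

variable {E : Type*} [Field E] [NumberField E]

theorem exists_den {X : Type*} [Finite X] (q : X → ℚ) :
    ∃ (D : ℕ) (m : X → ℤ), D ≠ 0 ∧ ∀ z, (m z : ℚ) = D * q z := by
  classical
  have := Fintype.ofFinite X
  refine ⟨∏ z, (q z).den, fun z => (q z).num * ∏ y ∈ Finset.univ.erase z, ((q y).den : ℤ),
    Finset.prod_ne_zero_iff.2 fun z _ => (q z).den_nz, fun z => ?_⟩
  rw [← Finset.mul_prod_erase Finset.univ (fun z => (q z).den) (Finset.mem_univ z)]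
  push_cast
  have h1 : ((q z).num : ℚ) = (q z).den * q z := by
    rw [mul_comm]
    exact (Rat.mul_den_eq_num (q z)).symm
  rw [h1]
  ring

/-- A space orthogonal to the slope type gives an integral relation. -/
theorem exists_relation {M : (E →+* ℂ) → ℤ} {Φ : Set (E →+* ℂ)}
    {S : Submodule ℚ ((E →+* ℂ) → ℚ)} (hS : S ∈ minimalSpaces E)
    (horth : ∀ s ∈ S, ∑ φ, ((sgn Φ φ * M φ : ℤ) : ℚ) * s φ = 0) :
    ∃ c : (E →+* ℂ) → ℤ, (∃ x, c x ≠ 0) ∧ (∀ x, c (ComplexEmbedding.conjugate x) = - c x) ∧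
      ∀ g : Gal E, ∑ x, c (g • x) * (sgn Φ x * M x) = 0 := by
  obtain ⟨hS0, hst, hodd, -⟩ := hS
  obtain ⟨s, hs, hs0⟩ := Submodule.exists_mem_ne_zero_of_ne_bot hS0
  obtain ⟨D, c, hD, hc⟩ := exists_den s
  have hDq : (D : ℚ) ≠ 0 := Nat.cast_ne_zero.2 hD
  refine ⟨c, ?_, ?_, ?_⟩
  · by_contra hall
    push Not at hall
    apply hs0
    funext x
    have h1 := hc x
    rw [hall x, Int.cast_zero] at h1
    exact (mul_eq_zero.1 h1.symm).resolve_left hDq
  · intro x
    have h1 : (c (ComplexEmbedding.conjugate x) : ℚ) = ((- c x : ℤ) : ℚ) := by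
      rw [hc, hodd s hs, Int.cast_neg, hc]
      ring
    exact_mod_cast h1
  · intro g
    obtain ⟨σ, hσ⟩ := gal_smul E g
    have h1 := horth _ (hst σ s hs)
    have h2 : ((∑ x, c (g • x) * (sgn Φ x * M x) : ℤ) : ℚ) =
        D * ∑ φ, ((sgn Φ φ * M φ : ℤ) : ℚ) * s ((σ : ℂ →+* ℂ).comp φ) := by
      rw [Int.cast_sum, Finset.mul_sum]
      refine Finset.sum_congr rfl fun x _ => ?_
      rw [Int.cast_mul, hc, hσ]
      ring
    rw [h1, mul_zero] at h2
    exact_mod_cast h2

variable [IsCMField E]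

theorem comp_conj (σ : ℂ ≃+* ℂ) (φ : E →+* ℂ) :
    (σ : ℂ →+* ℂ).comp (ComplexEmbedding.conjugate φ) =
      ComplexEmbedding.conjugate ((σ : ℂ →+* ℂ).comp φ) := by
  ext x
  have h4 : ComplexEmbedding.conjugate φ x = φ (IsCMField.complexConj E x) := by
    rw [ComplexEmbedding.conjugate_coe_eq, IsCMField.complexEmbedding_complexConj]
  have h5 : ComplexEmbedding.conjugate ((σ : ℂ →+* ℂ).comp φ) x =
      ((σ : ℂ →+* ℂ).comp φ) (IsCMField.complexConj E x) := by
    rw [ComplexEmbedding.conjugate_coe_eq, IsCMField.complexEmbedding_complexConj]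
  rw [h5, RingHom.comp_apply, h4, RingHom.comp_apply]

theorem gal_conj (g : Gal E) (φ : E →+* ℂ) :
    g • ComplexEmbedding.conjugate φ = ComplexEmbedding.conjugate (g • φ) := by
  obtain ⟨σ, hσ⟩ := gal_smul E g
  rw [hσ, hσ, comp_conj]

omit [NumberField E] [IsCMField E] in
theorem abs_sgn (Φ : Set (E →+* ℂ)) (φ : E →+* ℂ) : |sgn Φ φ| = 1 := by
  unfold sgn
  split_ifs <;> simp

omit [NumberField E] [IsCMField E] in
theorem sgn_cases (Φ : Set (E →+* ℂ)) (φ : E →+* ℂ) : sgn Φ φ = 1 ∨ sgn Φ φ = -1 := by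
  unfold sgn
  split_ifs
  · exact Or.inl rfl
  · exact Or.inr rfl

omit [NumberField E] [IsCMField E] in
/-- Halves are CM types. -/
theorem isHalf_iff (Ψ : Finset (E →+* ℂ)) :
    IsHalf (ComplexEmbedding.conjugate (K := E)) Ψ ↔ IsCMType (Ψ : Set (E →+* ℂ)) := Iff.rfl

omit [IsCMField E] in
open Classical in
/-- If all automorphisms act by even permutations the discriminant is a square. -/
theorem isSquare_of_even
    (h : ∀ g : Gal E, (Equiv.Perm.sign (MulAction.toPerm g : Equiv.Perm (E →+* ℂ)) : ℤ) = 1) :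
    IsSquare (discr E) := by
  obtain ⟨L, _, _, j, hj⟩ := exists_galois (fun _ : Unit => E)
  have hS := isSquare_of_sign j (fun _ : Unit => E) hj Finset.univ ?_
  · simpa using hS
  intro σ
  rw [Finset.univ_unique, Finset.prod_singleton]
  obtain ⟨τ, hτ⟩ := Pool.Agent.H977R3.CM.exists_aut j (σ : L ≃+* L)
  obtain ⟨g, hg⟩ := exists_gal_smul E τ
  rw [← h g]
  congr 1
  refine Equiv.Perm.sign_eq_sign_of_equiv _ _ (embEquiv j (hj ())) fun φ => ?_
  rw [MulAction.toPerm_apply, MulAction.toPerm_apply, hg]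
  ext x
  exact (hτ (φ x)).symm

/-- The relations hold for the combinations of the conjugates. -/
theorem combination_rel {M : (E →+* ℂ) → ℤ} (hM : ∀ φ, M (ComplexEmbedding.conjugate φ) = M φ)
    {Φ : Set (E →+* ℂ)} (hΦ : IsCMType Φ) {c : (E →+* ℂ) → ℤ}
    (hrel : ∀ g : Gal E, ∑ x, c (g • x) * (sgn Φ x * M x) = 0) {w : (E →+* ℂ) → ℤ}
    (hw : IsCombination M Φ w) :
    (∀ φ, w (ComplexEmbedding.conjugate φ) = - w φ) ∧
      ∀ g : Gal E, ∑ x, c (g • x) * w x = 0 := by
  have key : ∀ v ∈ Submodule.span ℚ {v : (E →+* ℂ) → ℚ | ∃ σ : ℂ ≃+* ℂ, ∀ φ : E →+* ℂ,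
      v φ = ((sgn Φ ((σ : ℂ →+* ℂ).comp φ) * M ((σ : ℂ →+* ℂ).comp φ) : ℤ) : ℚ)},
      (∀ φ, v (ComplexEmbedding.conjugate φ) = - v φ) ∧
        ∀ g : Gal E, ∑ x, (c (g • x) : ℚ) * v x = 0 := by
    intro v hv
    induction hv using Submodule.span_induction with
    | mem v hv =>
      obtain ⟨σ, hσ⟩ := hv
      refine ⟨fun φ => ?_, fun g => ?_⟩
      · rw [hσ, hσ, comp_conj, (oddSign_sgn hΦ).2, hM]
        push_cast
        ring
      · obtain ⟨h, hh⟩ := exists_gal_smul E σ
        have h1 := hrel (g * h⁻¹)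
        have h2 : ∑ x, (c (g • x) : ℚ) * v x =
            ((∑ x, c ((g * h⁻¹) • x) * (sgn Φ x * M x) : ℤ) : ℚ) := by
          rw [Int.cast_sum]
          refine Fintype.sum_equiv (MulAction.toPerm h) _ _ fun x => ?_
          rw [MulAction.toPerm_apply, mul_smul, inv_smul_smul, Int.cast_mul, hσ, hh]
        rw [h2, h1, Int.cast_zero]
    | zero => exact ⟨fun φ => by simp, fun g => by simp⟩
    | add a b _ _ ha hb =>
      refine ⟨fun φ => ?_, fun g => ?_⟩
      · rw [Pi.add_apply, Pi.add_apply, ha.1, hb.1]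
        ring
      · simp only [Pi.add_apply, mul_add, Finset.sum_add_distrib, ha.2 g, hb.2 g, add_zero]
    | smul t a _ ha =>
      refine ⟨fun φ => ?_, fun g => ?_⟩
      · rw [Pi.smul_apply, Pi.smul_apply, ha.1, smul_neg]
      · simp only [Pi.smul_apply, smul_eq_mul, mul_left_comm _ t, ← Finset.mul_sum, ha.2 g, mul_zero]
  obtain ⟨h1, h2⟩ := key _ hw
  refine ⟨fun φ => ?_, fun g => ?_⟩
  · have h3 := h1 φ
    beta_reduce at h3
    exact_mod_cast h3
  · have h3 := h2 g
    beta_reduce at h3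
    exact_mod_cast h3

/-- **Rigid slope types are not orthogonal to a Galois-stable space of odd functions.** -/
theorem not_orth {M : (E →+* ℂ) → ℤ} (hM : ∀ φ, M (ComplexEmbedding.conjugate φ) = M φ)
    {Φ : Set (E →+* ℂ)} (hΦ : IsCMType Φ) (h : RigidW M Φ)
    {S : Submodule ℚ ((E →+* ℂ) → ℚ)} (hS : S ∈ minimalSpaces E)
    (horth : ∀ s ∈ S, ∑ φ, ((sgn Φ φ * M φ : ℤ) : ℚ) * s φ = 0) : False := by
  classical
  obtain ⟨c, ⟨x, hx⟩, hc, hrel⟩ := exists_relation hS horth
  have hu : ∀ φ : E →+* ℂ, sgn Φ (ComplexEmbedding.conjugate φ) * M (ComplexEmbedding.conjugate φ) =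
      -(sgn Φ φ * M φ) := by
    intro φ
    rw [(oddSign_sgn hΦ).2, hM]
    ring
  have hGc : ∀ (g : Gal E) (φ : E →+* ℂ),
      g • ComplexEmbedding.conjugate φ = ComplexEmbedding.conjugate (g • φ) := gal_conj
  have hcard : Fintype.card (E →+* ℂ) = finrank ℚ E := Embeddings.card E ℂ
  -- the relation in the form of the starting files
  have hrel2 : ∀ g : Gal E, ∑ x, c x * (sgn Φ (g • x) * M (g • x)) = 0 := by
    intro g
    rw [← hrel g⁻¹]
    refine Fintype.sum_equiv (MulAction.toPerm g) _ _ fun x => ?_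
    rw [MulAction.toPerm_apply, inv_smul_smul]
  have hP : ∀ (H : Subgroup (ℂ ≃+* ℂ)) (ψ : E →+* ℂ),
      orbit (H.map (actHom E).rangeRestrict : Subgroup (Gal E)) ψ = orb H ψ := by
    intro H ψ
    ext φ
    constructor
    · rintro ⟨⟨_, σ, hσ, rfl⟩, rfl⟩
      exact ⟨σ, hσ, rfl⟩
    · rintro ⟨σ, hσ, rfl⟩
      exact ⟨⟨_, σ, hσ, rfl⟩, rfl⟩
  rcases h with ⟨w, hw, h⟩ | ⟨k, hdeg, hdisc, hodd⟩
  · obtain ⟨hwi, hwrel⟩ := combination_rel hM hΦ hrel hw
    rcases h with ⟨ψ, hdom⟩ | ⟨r, k, H, ψ, hr, hcardO, hno, hloc, hsum⟩ |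
      ⟨r, k, H, ψ, hr, hcardD, hloc, hsum⟩ | ⟨H, ψ, hcardD, he, ho, hloc⟩
    · -- a dominating pair
      exact hx (core_dominant (G := Gal E) conj_ne hGc w c hwi hc ψ hdom hwrel x)
    · -- a local orbit
      have _ : Fact r.Prime := ⟨hr⟩
      have hfin : (orb H ψ).Finite := Set.toFinite _
      have hmem : ∀ φ, φ ∈ hfin.toFinset ↔ φ ∈ orbit (H.map (actHom E).rangeRestrict :
          Subgroup (Gal E)) ψ := by
        intro φ
        rw [Set.Finite.mem_toFinset, hP]
      refine hx (core_local (G := Gal E) conj_conj conj_ne hGc r k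
        (H.map (actHom E).rangeRestrict) ψ (by rw [hP, hcardO])
        hfin.toFinset hmem w (fun φ => |w φ|) c hwi ?_ ?_ hc ?_ ?_ hwrel x)
      · intro φ
        rw [hwi, abs_neg]
      · intro φ
        rcases abs_choice (w φ) with h | h
        · exact Or.inl h.symm
        · exact Or.inr (by rw [h, neg_neg])
      · intro φ h1 h2
        rw [Set.Finite.mem_toFinset] at h1 h2
        exact hloc φ fun h => h.elim h1 h2
      · refine Or.inl ⟨by rwa [Set.Finite.mem_toFinset], ?_⟩
        rwa [finsum_mem_eq_finite_toFinset_sum _ hfin] at hsum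
    · -- local sums
      have _ : Fact r.Prime := ⟨hr⟩
      have hfin : (pairOrb H ψ).Finite := Set.toFinite _
      have hmem : ∀ φ, φ ∈ hfin.toFinset ↔ φ ∈ orbit (H.map (actHom E).rangeRestrict :
          Subgroup (Gal E)) ψ ∨ ComplexEmbedding.conjugate φ ∈
          orbit (H.map (actHom E).rangeRestrict : Subgroup (Gal E)) ψ := by
        intro φ
        rw [Set.Finite.mem_toFinset, hP]
        rfl
      refine hx (core_sums (G := Gal E) conj_conj conj_ne hGc r k
        (H.map (actHom E).rangeRestrict) ψ hfin.toFinset hmem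
        (by rw [← Set.ncard_eq_toFinset_card _ hfin, hcardD]) w c hwi hc ?_ ?_ hwrel x)
      · intro φ h1
        rw [Set.Finite.mem_toFinset] at h1
        exact hloc φ h1
      · intro Ψ hΨ
        have h1 := hsum (Ψ : Set (E →+* ℂ)) hΨ
        have h2 : (Ψ : Set (E →+* ℂ)) ∩ pairOrb H ψ =
            ((Ψ.filter (· ∈ hfin.toFinset) : Finset (E →+* ℂ)) : Set (E →+* ℂ)) := by
          ext φ
          simp only [Set.mem_inter_iff, Finset.mem_coe, Finset.mem_filter,
            Set.Finite.mem_toFinset]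
        rw [h2, finsum_mem_coe_finset] at h1
        exact h1
    · -- one even value
      have hfin : (pairOrb H ψ).Finite := Set.toFinite _
      have hmem : ∀ φ, φ ∈ hfin.toFinset ↔ φ ∈ orbit (H.map (actHom E).rangeRestrict :
          Subgroup (Gal E)) ψ ∨ ComplexEmbedding.conjugate φ ∈
          orbit (H.map (actHom E).rangeRestrict : Subgroup (Gal E)) ψ := by
        intro φ
        rw [Set.Finite.mem_toFinset, hP]
        rfl
      refine hx (core_parity_local (G := Gal E) conj_conj conj_ne hGc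
        (H.map (actHom E).rangeRestrict) ψ hfin.toFinset hmem
        (by rw [← Set.ncard_eq_toFinset_card _ hfin]; exact hcardD) w c hwi hc he ?_ ?_ hwrel x)
      · intro φ h1
        rw [Set.Finite.mem_toFinset] at h1
        exact ho φ h1
      · intro φ h1
        rw [Set.Finite.mem_toFinset] at h1
        exact hloc φ h1
  · -- odd weights
    refine hx (Pool.Agent.H204R3.SP.core_odd_val (G := Gal E) (ComplexEmbedding.conjugate (K := E))
      conj_conj conj_ne hGc k (by rw [hcard, hdeg, pow_succ, mul_comm])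
      (fun φ => sgn Φ φ * M φ) hu ?_ ?_ c hc hrel2 x)
    · intro φ
      rcases sgn_cases Φ φ with h | h
      · simp only [h, one_mul]
        exact hodd φ
      · simp only [h, neg_one_mul]
        exact (hodd φ).neg
    · by_contra hall
      push Not at hall
      apply hdisc
      refine isSquare_of_even fun g => ?_
      have h2 := hall g
      rw [Nat.not_odd_iff_even] at h2
      have hhalf : IsHalf (ComplexEmbedding.conjugate (K := E))
          (Finset.univ.filter (fun φ : E →+* ℂ => (sgn Φ φ * M φ) % 4 = 1)) := by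
        intro φ
        simp only [Finset.mem_filter, Finset.mem_univ, true_and]
        rw [hu]
        have h3 : Odd (sgn Φ φ * M φ) := by
          rcases sgn_cases Φ φ with h | h
          · simp only [h, one_mul]
            exact hodd φ
          · simp only [h, neg_one_mul]
            exact (hodd φ).neg
        obtain ⟨b, hb⟩ := h3
        omega
      rw [sign_of_half (fun φ => conj_conj φ) _ hhalf (MulAction.toPerm g) (fun φ => hGc g φ)]
      exact h2.neg_one_pow

end Pool.Agent.Zk39.NP
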