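import Mathlib
import Pool.Agent.Zk39.NP.Field

/-!
# The conditions on the Newton polygon
-/

set_option autoImplicit false

namespace Pool.Agent.Zk39.NP

open NumberField Module MulAction Pool.Agent.H925R2 Pool.Agent.H204R3.CM Pool.Agent.H977R3.CM
  Pool.Agent.TH170.CM Pool.Agent.TH170.MF

section

variable {E : Type*} [Field E] [NumberField E]

omit [NumberField E] in
theorem isCombination_self (M : (E →+* ℂ) → ℤ) (Φ : Set (E →+* ℂ)) :
    IsCombination M Φ (fun φ => sgn Φ φ * M φ) :=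
  Submodule.subset_span ⟨RingEquiv.refl ℂ, fun _ => rfl⟩

theorem pairOrb_top (ψ : E →+* ℂ) : pairOrb ⊤ ψ = Set.univ := by
  refine Set.eq_univ_of_forall fun φ => Or.inl ?_
  obtain ⟨σ, hσ⟩ := exists_comp_eq E ψ φ
  exact ⟨σ, Subgroup.mem_top σ, hσ.symm⟩

theorem ncard_univ : (Set.univ : Set (E →+* ℂ)).ncard = finrank ℚ E := by
  rw [Set.ncard_univ, Nat.card_eq_fintype_card, Embeddings.card]

end

/-- The three conditions on the Newton polygon suffice, for all CM types. -/
theorem rigidW_of_newton {E : Type*} [Field E] [NumberField E] [IsCMField E]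
    {M : (E →+* ℂ) → ℤ} (hM : ∀ φ, M (ComplexEmbedding.conjugate φ) = M φ)
    (Φ : Set (E →+* ℂ)) (h : NewtonRigid M) : RigidW M Φ := by
  classical
  refine Or.inl ⟨fun φ => sgn Φ φ * M φ, isCombination_self M Φ, ?_⟩
  have habs : ∀ φ : E →+* ℂ, |sgn Φ φ * M φ| = |M φ| := fun φ => by
    rw [abs_mul, abs_sgn, one_mul]
  have hodd : ∀ φ : E →+* ℂ, Odd (M φ) → Odd (sgn Φ φ * M φ) := by
    intro φ hφ
    rcases sgn_cases Φ φ with h | h
    · rwa [h, one_mul]
    · rw [h, neg_one_mul]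
      exact hφ.neg
  rcases h with ⟨ψ, h⟩ | ⟨r, k, hr, hdeg, h4, h2⟩ | ⟨hdeg, ψ, he, ho⟩
  · refine Or.inl ⟨ψ, ?_⟩
    simp only [habs]
    exact h
  · have hne : Nonempty (E →+* ℂ) := inferInstance
    obtain ⟨ψ⟩ := hne
    refine Or.inr (Or.inr (Or.inl ⟨r, k, ⊤, ψ, hr, ?_, ?_, ?_⟩))
    · rw [pairOrb_top, ncard_univ, hdeg]
    · intro φ hφ
      rw [pairOrb_top] at hφ
      exact absurd (Set.mem_univ φ) hφ
    · intro Ψ hΨ hdvd
      rw [pairOrb_top, Set.inter_univ] at hdvd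
      have hfin : Ψ.Finite := Set.toFinite _
      rw [finsum_mem_eq_finite_toFinset_sum _ hfin] at hdvd
      have hhalf : IsHalf (ComplexEmbedding.conjugate (K := E)) hfin.toFinset := by
        intro φ
        rw [Set.Finite.mem_toFinset, Set.Finite.mem_toFinset]
        exact hΨ φ
      have hsM : ∑ φ, M φ = ∑ φ ∈ hfin.toFinset, M φ + ∑ φ ∈ hfin.toFinset, M φ :=
        hhalf.sum_symm conj_conj M hM
      have hsA : ∑ φ, |M φ| = ∑ φ ∈ hfin.toFinset, |M φ| + ∑ φ ∈ hfin.toFinset, |M φ| :=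
        hhalf.sum_symm conj_conj (fun φ => |M φ|) (fun φ => by rw [hM])
      have hpar : ¬ (2 : ℤ) ∣ ∑ φ ∈ hfin.toFinset, sgn Φ φ * M φ := by
        intro h5
        apply h4
        have h6 : (2 : ℤ) ∣ ∑ φ ∈ hfin.toFinset, M φ - ∑ φ ∈ hfin.toFinset, sgn Φ φ * M φ := by
          rw [← Finset.sum_sub_distrib]
          refine Finset.dvd_sum fun φ _ => ?_
          rcases sgn_cases Φ φ with h | h
          · rw [h, one_mul, sub_self]
            exact dvd_zero _
          · rw [h, neg_one_mul, sub_neg_eq_add]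
            exact ⟨M φ, by ring⟩
        obtain ⟨t, ht⟩ := (dvd_sub_left h5).1 h6
        exact ⟨t, by rw [hsM, ht]; ring⟩
      rcases h2 with rfl | h2
      · exact hpar hdvd
      · have h5 : |∑ φ ∈ hfin.toFinset, sgn Φ φ * M φ| < r := by
          refine lt_of_le_of_lt (Finset.abs_sum_le_sum_abs _ _) ?_
          simp only [habs]
          linarith
        have h6 : ∑ φ ∈ hfin.toFinset, sgn Φ φ * M φ = 0 := Int.eq_zero_of_abs_lt_dvd hdvd h5
        apply hpar
        rw [h6]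
        exact dvd_zero _
  · refine Or.inr (Or.inr (Or.inr ⟨⊤, ψ, ?_, he.mul_left _, ?_, ?_⟩))
    · rw [pairOrb_top, ncard_univ]
      exact hdeg
    · intro φ _ h1 h2
      exact hodd φ (ho φ h1 h2)
    · intro φ hφ
      rw [pairOrb_top] at hφ
      exact absurd (Set.mem_univ φ) hφ

end Pool.Agent.Zk39.NP
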