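import Mathlib
import Pool.Agent.TH170.GS.Rel
import Pool.Agent.Zk39.NP.Criteria

/-!
# The relations between the Frobenius eigenvalues for rigid slope types
-/

set_option autoImplicit false

namespace Pool.Agent.Zk39.NP

open NumberField Module Pool.Agent.H204R3.CM Pool.Agent.H977R3.CM Pool.Agent.TH170
  Pool.Agent.TH170.CM Pool.Agent.TH170.MF Pool.Agent.TH170.FW Pool.Agent.W495.TA

/-- Rigid slope types are not degenerate. -/
theorem not_mem_degTypes {E : Type*} [Field E] [NumberField E] [IsCMField E]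
    {M : (E →+* ℂ) → ℤ} (hM : ∀ φ, M (ComplexEmbedding.conjugate φ) = M φ)
    {Φ : Set (E →+* ℂ)} (hΦ : IsCMType Φ) (h : Rigid M Φ) : Φ ∉ degTypes M := by
  rintro ⟨-, S, hS, horth⟩
  rcases h with h | h
  · exact not_orth hM hΦ (rigidW_of_newton hM Φ h) hS horth
  · exact not_orth hM hΦ h hS horth

/-- The abelian varieties with rigid slope types have elementary relations. -/
theorem elementary {p : ℕ} [Fact p.Prime] {ν : PadicAlgCl p ≃+* ℂ} {I : Type} [Fintype I]
    {K : I → Type} [∀ i, Field (K i)] [∀ i, NumberField (K i)] [∀ i, IsCMField (K i)]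
    (hind : PairwiseIndep K) {M : ∀ i, (K i →+* ℂ) → ℤ}
    (hM : ∀ i φ, M i (ComplexEmbedding.conjugate φ) = M i φ)
    {Φ : ∀ i, Set (K i →+* ℂ)} (hΦ : ∀ i, IsCMType (Φ i)) (hr : ∀ i, Rigid (M i) (Φ i))
    (Y : RedAV p ν) (hY : GS.OfTypes K M Φ Y) :
    ∃ Z : RedAV p ν, TH117.BL.HasElementaryRelations Z ∧
      TH117.BL.IsPowersTimesSupersingular Z Y :=
  ⟨Y, GS.elementary_of_types hind hM hΦ (fun i => not_mem_degTypes (hM i) (hΦ i) (hr i)) hY,
    fun k => Or.inr ⟨k, RingHom.id _, 1, 1, one_pos, one_pos, rfl, rfl⟩⟩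

end Pool.Agent.Zk39.NP
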