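import Mathlib
import Pool.Agent.TH170.GS.TB
import Pool.Agent.Zk39.NP.Main
import Pool.Agent.Zk39.NP.Criteria

/-!
# Abelian varieties over finite fields with rigid slope types
-/

set_option autoImplicit false

namespace Pool.Agent.Zk39.NP

open NumberField Module Pool.Agent.H204R3.CM Pool.Agent.H977R3.CM Pool.Agent.TH170
  Pool.Agent.W495.TA Pool.Agent.W495.FM Pool.Agent.TH117 Pool.Agent.TH117.GN

/-- The abelian variety `Y` has rigid slope types: there are finitely many pairwise independent CM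
fields `K i` with weights `M i` (invariant under complex conjugation) and CM types `Φ i` which are
rigid, such that each factor of `Y` is supersingular or has a Frobenius endomorphism some power of
which is a Weil number in some `K i` with the slopes `(a ± κ i * M i) / 2`, sign `+` on `Φ i`. -/
def IsRigid {p : ℕ} [Fact p.Prime] {ν : PadicAlgCl p ≃+* ℂ} (Y : RedAV p ν) : Prop :=
  ∃ (I : Type) (_ : Fintype I) (K : I → Type) (_ : ∀ i, Field (K i)) (_ : ∀ i, NumberField (K i))
    (_ : ∀ i, IsCMField (K i)) (M : ∀ i, (K i →+* ℂ) → ℤ) (Φ : ∀ i, Set (K i →+* ℂ)),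
    PairwiseIndep K ∧ (∀ i φ, M i (ComplexEmbedding.conjugate φ) = M i φ) ∧
      (∀ i, IsCMType (Φ i)) ∧ (∀ i, Rigid (M i) (Φ i)) ∧ GS.OfTypes K M Φ Y

theorem elementary_of_rigid {p : ℕ} [Fact p.Prime] {ν : PadicAlgCl p ≃+* ℂ} {Y : RedAV p ν}
    (h : IsRigid Y) : ∃ Z : RedAV p ν, BL.HasElementaryRelations Z ∧
      BL.IsPowersTimesSupersingular Z Y := by
  obtain ⟨I, _, K, _, _, _, M, Φ, hind, hM, hΦ, hr, hY⟩ := h
  exact elementary hind hM hΦ hr Y hY

/-- The groups of motivic and of `ℓ`-adic homology of `X` are those of an abelian variety with rigid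
slope types. -/
def IsRigidAbelian {Ω V : Type} [Field Ω] [CharZero Ω] (p : ℕ) [Fact p.Prime]
    (ν : PadicAlgCl p ≃+* ℂ) (T : Homology Ω V) (X : V) : Prop :=
  ∃ (Y : RedAV p ν) (C : Cycles Ω Y) (D : Motivic C) (g : ℕ), IsRigid Y ∧ IsChow C ∧
    IsMotivic D ∧ IsAbelian T X D g

/-- The conjecture `TB` for the class generated by the abelian varieties with rigid slope types and by
the schemes for which it is known otherwise. -/
theorem tb_rigid {p : ℕ} [Fact p.Prime] {ν : PadicAlgCl p ≃+* ℂ} {Ω V : Type} [Field Ω]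
    [IsAlgClosed Ω] [CharZero Ω] {T : Homology Ω V} (hT : IsHomology T) {X : V}
    (hX : Generated T (fun Y => IsRigidAbelian p ν T Y ∨ TB T Y) X) : TB T X := by
  refine tb_generated hT (fun X hX => ?_) hX
  rcases hX with ⟨Y, C, D, g, h1, hC, hD, hX⟩ | hX
  · obtain ⟨Z, h2, h3⟩ := elementary_of_rigid h1
    exact tb_abelian hT hC (tateHolds_elem h2 h3 hC) hD hX
  · exact hX

end Pool.Agent.Zk39.NP
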